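import Pool.Agent.H678.Lomb.Main

/-!
# Lombardi drawability with rotation system is `∃ℝ`-hard for graphs of maximum degree `24`

An instance `g : RotG` is a list of pairs `(v, l)`: `v` is the name of a vertex and `l` is the list
of the names of its neighbours in counterclockwise order.

* `g.IsRot`: the list describes a finite simple graph with a rotation system.
* `g.MaxDeg 24`: all degrees are at most `24`.
* `g.Lombardi`: there is a Lombardi drawing that respects the rotation system.  The vertices are at
  different points; every edge is a segment or a circular arc (`IsArc p q a b A`: the arc from `p` to
  `q` leaves `p` in the direction `a` and `q` in the direction `b`, and `A` is the arc without its end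
  points); no edge passes through a vertex; at every vertex the edge ends have equally spaced
  directions, in the counterclockwise order of the list.

`lang P` is the language of all encodings of instances satisfying `P`, and `ERHard L` says that every
language in `∃ℝ` has a polynomial-time many-one reduction to `L`.
-/

namespace Pool.Agent.Results.MP_235cc9_lc.BoundedDegree

open Pool.Agent.NPC Pool.Agent.NPC.ER Pool.Agent.H678.Lomb

/-- **Lombardi drawability with rotation system is `∃ℝ`-hard for graphs of maximum degree at most
`24`.** -/
theorem result : ERHard (lang fun g : RotG => g.IsRot ∧ g.MaxDeg 24 ∧ g.Lombardi) :=
  hard

end Pool.Agent.Results.MP_235cc9_lc.BoundedDegree
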